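import Pool.Agent.H922Z.NU.Defs

set_option autoImplicit false

open Complex Metric Set Filter Topology
open scoped ContDiff

namespace Pool.Agent.H462Z.NU

open BK Pool.Agent.H922Z.NU

variable {n : ℕ}

theorem chi_exists : ∃ χ : ℝ → ℝ, ContDiff ℝ ∞ χ ∧ (∀ t, 0 ≤ χ t) ∧ (∀ t, t ≤ 0 → χ t = 0) ∧
    Monotone χ ∧ ConvexOn ℝ univ χ ∧ (∀ t, 0 < t → 0 < χ t) := by
  have hc : Continuous expNegInvGlue := (expNegInvGlue.contDiff (n := 0)).continuous
  obtain ⟨χ, hχ⟩ : ∃ χ : ℝ → ℝ, χ = fun t => ∫ s in (0:ℝ)..t, expNegInvGlue s := ⟨_, rfl⟩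
  have hder : ∀ t, HasDerivAt χ (expNegInvGlue t) t := by
    intro t
    rw [hχ]
    exact (hc.integral_hasStrictDerivAt 0 t).hasDerivAt
  have hd : deriv χ = expNegInvGlue := by
    funext t
    exact (hder t).deriv
  have hdiff : Differentiable ℝ χ := fun t => (hder t).differentiableAt
  have h0 : ∀ t, t ≤ 0 → χ t = 0 := by
    intro t ht
    rw [hχ]
    have : ∫ s in (0:ℝ)..t, expNegInvGlue s = ∫ s in (0:ℝ)..t, (0:ℝ) := by
      apply intervalIntegral.integral_congr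
      intro s hs
      rw [Set.uIcc_of_ge ht] at hs
      exact expNegInvGlue.zero_of_nonpos hs.2
    simp only [this]
    simp
  have hpos : ∀ t, 0 < t → 0 < χ t := by
    intro t ht
    rw [hχ]
    exact intervalIntegral.intervalIntegral_pos_of_pos_on (hc.intervalIntegrable _ _)
      (fun x hx => expNegInvGlue.pos_of_pos hx.1) ht
  refine ⟨χ, ?_, ?_, h0, ?_, ?_, hpos⟩
  · rw [contDiff_infty_iff_deriv]
    exact ⟨hdiff, by rw [hd]; exact expNegInvGlue.contDiff⟩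
  · intro t
    rcases le_or_gt t 0 with h | h
    · exact (h0 t h).ge
    · exact (hpos t h).le
  · exact monotone_of_deriv_nonneg hdiff fun t => by rw [hd]; exact expNegInvGlue.nonneg t
  · exact Monotone.convexOn_univ_of_deriv hdiff (by rw [hd]; exact expNegInvGlue.monotone)

theorem grad_ineq {g : En n → ℝ} (hc : ConvexOn ℝ univ g) (hd : Differentiable ℝ g) (z ζ : En n) :
    0 ≤ g z - g ζ - fderiv ℝ g ζ (z - ζ) := by
  have h1 : ConvexOn ℝ univ (g ∘ (AffineMap.lineMap ζ z : ℝ →ᵃ[ℝ] En n)) := by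
    simpa using hc.comp_affineMap (AffineMap.lineMap ζ z : ℝ →ᵃ[ℝ] En n)
  have h2 : HasDerivAt (g ∘ (AffineMap.lineMap ζ z : ℝ →ᵃ[ℝ] En n)) (fderiv ℝ g ζ (z - ζ)) 0 := by
    have h3 : HasDerivAt (AffineMap.lineMap ζ z : ℝ →ᵃ[ℝ] En n) (z - ζ) 0 := AffineMap.hasDerivAt_lineMap
    have h4 : HasFDerivAt g (fderiv ℝ g ζ) ((AffineMap.lineMap ζ z : ℝ →ᵃ[ℝ] En n) 0) := by
      rw [AffineMap.lineMap_apply_zero]; exact (hd ζ).hasFDerivAt
    exact h4.comp_hasDerivAt 0 h3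
  have h5 := h1.le_slope_of_hasDerivAt (mem_univ 0) (mem_univ 1) zero_lt_one h2
  simp [slope_def_field] at h5
  simp only [map_sub]
  linarith

theorem bump_exists (p : En n) (R : ℝ) (hR : 0 < R) (B : ℝ) :
    ∃ g : En n → ℝ, ContDiff ℝ ∞ g ∧ ConvexOn ℝ univ g ∧ (∀ x, 0 ≤ g x) ∧
      (∀ x ∈ ball p (R / 8), g x = 0) ∧ ∀ x, R / 4 ≤ ‖x - p‖ → B < g x := by
  obtain ⟨χ, h1, h2, h3, h4, h5, h6⟩ := chi_exists
  have hc0 : 0 < χ ((R / 4) ^ 2 - (R / 8) ^ 2) := h6 _ (by nlinarith)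
  set L : ℝ := (|B| + 1) / χ ((R / 4) ^ 2 - (R / 8) ^ 2) with hL
  have hL0 : 0 < L := by positivity
  refine ⟨fun x => L * ∑ j, χ (‖x j - p j‖ ^ 2 - (R / 8) ^ 2), ?_, ?_, ?_, ?_, ?_⟩
  · refine contDiff_const.mul (ContDiff.sum fun j _ => h1.comp ?_)
    refine ContDiff.sub (ContDiff.norm_sq ℝ ?_) contDiff_const
    exact (contDiff_apply ℝ ℂ j).sub contDiff_const
  · have hj : ∀ j : Fin n, ConvexOn ℝ univ (fun x : En n => χ (‖x j - p j‖ ^ 2 - (R / 8) ^ 2)) := by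
      intro j
      have a1 : ConvexOn ℝ univ (fun x : En n => ‖x j - p j‖) := by
        refine ⟨convex_univ, fun x _ y _ a b ha hb hab => ?_⟩
        have : (a • x + b • y) j - p j = a • (x j - p j) + b • (y j - p j) := by
          have hp : p j = a • p j + b • p j := by rw [← add_smul, hab, one_smul]
          simp only [Pi.add_apply, Pi.smul_apply, smul_sub]
          linear_combination (exp := 1) -hp
        simp only [this]
        refine (norm_add_le _ _).trans ?_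
        rw [norm_smul, norm_smul, Real.norm_of_nonneg ha, Real.norm_of_nonneg hb]
        rfl
      have a2 : ConvexOn ℝ univ (fun x : En n => ‖x j - p j‖ ^ 2 - (R / 8) ^ 2) := by
        have := (a1.pow (fun x _ => norm_nonneg _) 2).add_const (-(R / 8) ^ 2)
        refine this.congr fun x _ => ?_
        simp [sub_eq_add_neg]
      refine ⟨convex_univ, fun x _ y _ a b ha hb hab => ?_⟩
      exact (h4 (a2.2 (mem_univ x) (mem_univ y) ha hb hab)).trans
        (h5.2 (mem_univ _) (mem_univ _) ha hb hab)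
    refine ⟨convex_univ, fun x _ y _ a b ha hb hab => ?_⟩
    have := Finset.sum_le_sum fun j (_ : j ∈ Finset.univ) =>
      (hj j).2 (mem_univ x) (mem_univ y) ha hb hab
    simp only [smul_eq_mul, Finset.sum_add_distrib, ← Finset.mul_sum] at this ⊢
    nlinarith [mul_le_mul_of_nonneg_left this hL0.le]
  · intro x
    exact mul_nonneg hL0.le (Finset.sum_nonneg fun j _ => h2 _)
  · intro x hx
    have : ∀ j, χ (‖x j - p j‖ ^ 2 - (R / 8) ^ 2) = 0 := by
      intro j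
      apply h3
      have a1 : ‖x j - p j‖ ≤ ‖x - p‖ := norm_le_pi_norm (x - p) j
      rw [mem_ball_iff_norm] at hx
      have a2 := norm_nonneg (x j - p j)
      nlinarith
    simp [this]
  · intro x hx
    obtain ⟨j, hj⟩ : ∃ j, R / 4 ≤ ‖x j - p j‖ := by
      by_contra hn
      push Not at hn
      have := (pi_norm_lt_iff (x := x - p) (by positivity : 0 < R / 4)).2 hn
      linarith
    have a1 : χ ((R / 4) ^ 2 - (R / 8) ^ 2) ≤ χ (‖x j - p j‖ ^ 2 - (R / 8) ^ 2) := by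
      apply h4
      have : (R / 4) ^ 2 ≤ ‖x j - p j‖ ^ 2 := by gcongr
      linarith
    have a2 : χ (‖x j - p j‖ ^ 2 - (R / 8) ^ 2) ≤ ∑ j, χ (‖x j - p j‖ ^ 2 - (R / 8) ^ 2) :=
      Finset.single_le_sum (f := fun j => χ (‖x j - p j‖ ^ 2 - (R / 8) ^ 2)) (fun j _ => h2 _)
        (Finset.mem_univ j)
    have a3 : L * χ ((R / 4) ^ 2 - (R / 8) ^ 2) = |B| + 1 := by
      rw [hL]; exact div_mul_cancel₀ _ hc0.ne'
    have a4 := mul_le_mul_of_nonneg_left (a1.trans a2) hL0.le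
    have := le_abs_self B
    show B < L * _
    linarith

section

variable {E : Type} [NormedAddCommGroup E] [NormedSpace ℝ E]

theorem sfd {f : E → ℝ} (hf : ContDiff ℝ ∞ f) : ContDiff ℝ ∞ (fderiv ℝ f) :=
  hf.fderiv_right (m := ∞) le_rfl

theorem lip [ProperSpace E] {F : Type} [NormedAddCommGroup F] [NormedSpace ℝ F] {f : E → F}
    (h1 : ContDiff ℝ ∞ f) (p : E) (R : ℝ) : ∃ M : ℝ,
    (∀ x ∈ closedBall p R, ‖f x‖ ≤ M) ∧ ∀ x ∈ closedBall p R, ∀ y ∈ closedBall p R,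
      ‖f x - f y‖ ≤ M * ‖x - y‖ := by
  have h2 : Continuous (fderiv ℝ f) := h1.continuous_fderiv (by simp)
  obtain ⟨A, hA⟩ := (isCompact_closedBall p R).exists_bound_of_continuousOn h1.continuous.continuousOn
  obtain ⟨B, hB⟩ := (isCompact_closedBall p R).exists_bound_of_continuousOn h2.continuousOn
  refine ⟨max A B, fun x hx => (hA x hx).trans (le_max_left _ _), fun x hx y hy => ?_⟩
  exact (convex_closedBall p R).norm_image_sub_le_of_norm_fderiv_le
    (fun z _ => h1.differentiable (by simp) z) (fun z hz => (hB z hz).trans (le_max_right _ _)) hy hx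

theorem bnd [ProperSpace E] {f : E → ℝ} (hf : ContDiff ℝ ∞ f) (p : E) (R : ℝ) : ∃ M : ℝ,
    (∀ x ∈ closedBall p R, ‖fderiv ℝ f x‖ ≤ M) ∧ ∀ x ∈ closedBall p R, ∀ y ∈ closedBall p R,
      ‖fderiv ℝ f x - fderiv ℝ f y‖ ≤ M * ‖x - y‖ := lip (sfd hf) p R

theorem taylor {f : E → ℝ} (hf : ContDiff ℝ ∞ f) (p : E) (R c : ℝ) (hc : 0 ≤ c)
    (H : E →L[ℝ] E →L[ℝ] ℝ) (hs : ∀ v w, H v w = H w v)
    (hH : ∀ x ∈ closedBall p R, ‖fderiv ℝ (fderiv ℝ f) x - H‖ ≤ c)
    (z : E) (hz : z ∈ closedBall p R) (ζ : E) (hζ : ζ ∈ closedBall p R) :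
    |f z - f ζ - fderiv ℝ f ζ (z - ζ) - H (z - ζ) (z - ζ) / 2| ≤ c * ‖z - ζ‖ ^ 2 := by
  have h1 := sfd hf
  have h2 : ∀ y ∈ closedBall p R, ‖fderiv ℝ f y - fderiv ℝ f ζ - H (y - ζ)‖ ≤ c * ‖y - ζ‖ :=
    fun y hy => (convex_closedBall p R).norm_image_sub_le_of_norm_fderiv_le'
      (fun z _ => h1.differentiable (by simp) z) hH hζ hy
  have h3 : ∀ y, HasFDerivAt (fun y => f y - fderiv ℝ f ζ (y - ζ) - H (y - ζ) (y - ζ) / 2)
      (fderiv ℝ f y - fderiv ℝ f ζ - H (y - ζ)) y := by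
    intro y
    have a0 : HasFDerivAt (fun y : E => y - ζ) (ContinuousLinearMap.id ℝ (E)) y :=
      (hasFDerivAt_id y).sub_const ζ
    have a1 : HasFDerivAt f (fderiv ℝ f y) y := (hf.differentiable (by simp) y).hasFDerivAt
    have a2 : HasFDerivAt (fun y => fderiv ℝ f ζ (y - ζ)) (fderiv ℝ f ζ) y := by
      exact (fderiv ℝ f ζ).hasFDerivAt.comp y a0
    have a3 : HasFDerivAt (fun y => H (y - ζ)) H y := by
      exact H.hasFDerivAt.comp y a0
    have a4 := (a3.clm_apply a0).mul_const (1 / 2 : ℝ)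
    have a5 := (a1.sub a2).sub a4
    have e1 : (fun y => f y - fderiv ℝ f ζ (y - ζ) - H (y - ζ) (y - ζ) / 2) =
        ((f - fun y => (fderiv ℝ f ζ) (y - ζ)) - fun y => (H (y - ζ)) (y - ζ) * (1 / 2)) := by
      funext y; simp only [Pi.sub_apply]; ring
    have e2 : H (y - ζ) = (1 / 2 : ℝ) •
        (H (y - ζ) ∘L ContinuousLinearMap.id ℝ (E) + H.flip (y - ζ)) := by
      refine ContinuousLinearMap.ext fun v => ?_
      show H (y - ζ) v = (1 / 2 : ℝ) * (H (y - ζ) v + H v (y - ζ))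
      rw [hs v (y - ζ)]
      ring
    rw [e1]
    exact a5.congr_fderiv (by rw [← e2])
  have h4 := ((convex_closedBall p R).inter (convex_closedBall ζ ‖z - ζ‖)).norm_image_sub_le_of_norm_hasFDerivWithin_le
    (C := c * ‖z - ζ‖) (x := ζ) (y := z) (fun y _ => (h3 y).hasFDerivWithinAt)
    (fun y hy => (h2 y hy.1).trans (mul_le_mul_of_nonneg_left (mem_closedBall_iff_norm.1 hy.2) hc))
    ⟨hζ, mem_closedBall_self (norm_nonneg _)⟩ ⟨hz, mem_closedBall_iff_norm.2 le_rfl⟩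
  simp only [sub_self, map_zero, zero_div, sub_zero, Real.norm_eq_abs] at h4
  have e : f z - f ζ - fderiv ℝ f ζ (z - ζ) - H (z - ζ) (z - ζ) / 2 =
      f z - fderiv ℝ f ζ (z - ζ) - H (z - ζ) (z - ζ) / 2 - f ζ := by ring
  rw [e]
  linarith [h4, sq ‖z - ζ‖, mul_assoc c ‖z - ζ‖ ‖z - ζ‖]

theorem near {F : Type} [NormedAddCommGroup F] [NormedSpace ℝ F] {f : E → F} (hf : ContDiff ℝ ∞ f)
    (p : E) (c : ℝ) (hc : 0 < c) : ∀ᶠ x in 𝓝 p, ‖fderiv ℝ f x - fderiv ℝ f p‖ ≤ c := by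
  have h2 : Continuous (fderiv ℝ f) := hf.continuous_fderiv (by simp)
  have : Continuous (fun x => ‖fderiv ℝ f x - fderiv ℝ f p‖) := (h2.sub continuous_const).norm
  exact (this.continuousAt.eventually_lt continuousAt_const (by simpa using hc)).mono fun _ h => h.le

end

theorem decomp (w : En n) : w = ∑ j, ((w j).re • (Pi.single j 1 : En n) + (w j).im • (Pi.single j I : En n)) := by
  funext k
  simp only [Finset.sum_apply, Pi.add_apply, Pi.smul_apply, Pi.single_apply]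
  rw [Finset.sum_eq_single k]
  · simp
  · intro j _ hj
    simp [hj.symm]
  · simp

theorem lin_sum (L : En n →L[ℝ] ℝ) (w : En n) :
    ∑ j, (((L (Pi.single j 1) : ℝ) : ℂ) - I * (L (Pi.single j I) : ℝ)) * w j =
      (L w : ℝ) - I * (L (I • w) : ℝ) := by
  have h1 := congrArg L (decomp w)
  have h2 := congrArg L (decomp (I • w))
  rw [h1, h2]
  simp only [map_sum, map_add, map_smul, smul_eq_mul, Pi.smul_apply, mul_re, mul_im, I_re, I_im]
  push_cast
  rw [Finset.mul_sum, ← Finset.sum_sub_distrib]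
  refine Finset.sum_congr rfl fun j _ => ?_
  have h3 : w j = (w j).re + (w j).im * I := (re_add_im (w j)).symm
  have h4 : I * I = -1 := I_mul_I
  linear_combination (((L (Pi.single j 1) : ℝ) : ℂ) - I * (L (Pi.single j I) : ℝ)) * h3 -
    ((L (Pi.single j I) : ℝ) : ℂ) * (w j).im * h4

theorem P_exists (H : En n →L[ℝ] En n →L[ℝ] ℝ) : ∃ P : Fin n → Fin n → ℂ, ∀ w : En n,
    (∑ j, ∑ k, P j k * w j * w k).re = (H w w - H (I • w) (I • w)) / 4 := by
  refine ⟨fun j k => (1 / 4) *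
    ((((H (Pi.single j 1) (Pi.single k 1) : ℝ) : ℂ) - I * (H (Pi.single j 1) (Pi.single k I) : ℝ)) -
      I * (((H (Pi.single j I) (Pi.single k 1) : ℝ) : ℂ) - I * (H (Pi.single j I) (Pi.single k I) : ℝ))),
    fun w => ?_⟩
  have h1 : ∀ j : Fin n, ∑ k, (1 / 4 : ℂ) *
      ((((H (Pi.single j 1) (Pi.single k 1) : ℝ) : ℂ) - I * (H (Pi.single j 1) (Pi.single k I) : ℝ)) -
      I * (((H (Pi.single j I) (Pi.single k 1) : ℝ) : ℂ) - I * (H (Pi.single j I) (Pi.single k I) : ℝ))) *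
        w j * w k =
      (1 / 4) * ((((H.flip w (Pi.single j 1) : ℝ) : ℂ) - I * (H.flip w (Pi.single j I) : ℝ)) * w j) -
      (1 / 4) * I * ((((H.flip (I • w) (Pi.single j 1) : ℝ) : ℂ) -
        I * (H.flip (I • w) (Pi.single j I) : ℝ)) * w j) := by
    intro j
    have a1 := lin_sum (H (Pi.single j 1)) w
    have a2 := lin_sum (H (Pi.single j I)) w
    simp only [ContinuousLinearMap.flip_apply]
    have a3 : ∀ (A B : Fin n → ℂ), ∑ k, (1 / 4 : ℂ) * (A k - I * B k) * w j * w k =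
        (1 / 4) * w j * (∑ k, A k * w k) - (1 / 4) * w j * I * (∑ k, B k * w k) := by
      intro A B
      rw [Finset.mul_sum, Finset.mul_sum, ← Finset.sum_sub_distrib]
      exact Finset.sum_congr rfl fun k _ => by ring
    rw [a3, a1, a2]
    ring
  simp only [h1]
  rw [Finset.sum_sub_distrib, ← Finset.mul_sum, ← Finset.mul_sum, lin_sum, lin_sum]
  simp only [ContinuousLinearMap.flip_apply]
  simp [mul_re, mul_im]
  ring

theorem t7 : T7 := by
  intro n r hr p hp hd hL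
  have h1 := sfd hr
  set H := fderiv ℝ (fderiv ℝ r) p with hH
  have hs : ∀ v w, H v w = H w v := fun v w =>
    (hr.contDiffAt.isSymmSndFDerivAt (by simp; exact WithTop.coe_le_coe.2 le_top)).eq v w
  have hLv : ∀ w, Lv r p w = (H w w + H (I • w) (I • w)) / 4 := by
    intro w
    have a : ∀ v : En n, fderiv ℝ (fun y => fderiv ℝ r y v) p v = H v v := by
      intro v
      rw [fderiv_clm_apply (h1.differentiable (by simp) p) (differentiableAt_const v)]
      simp [hH]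
    unfold Lv
    rw [a, a]
    ring
  obtain ⟨j₀, ν, hν1, hν2, hν3⟩ : ∃ (j₀ : Fin n) (ν : En n), ‖ν‖ = 1 ∧ (∀ j, j ≠ j₀ → ν j = 0) ∧
      0 < fderiv ℝ r p ν := by
    obtain ⟨j, u, hu, h⟩ : ∃ (j : Fin n) (u : ℂ), ‖u‖ = 1 ∧ fderiv ℝ r p (Pi.single j u) ≠ 0 := by
      by_contra hn
      push Not at hn
      apply hd
      ext w
      rw [decomp w]
      simp only [map_sum, map_add, map_smul, hn _ 1 norm_one, hn _ I norm_I]
      simp
    rcases lt_or_gt_of_ne h with h | h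
    · refine ⟨j, -Pi.single j u, by rw [norm_neg, Pi.norm_single, hu], fun k hk => by simp [hk], ?_⟩
      rw [map_neg]; linarith
    · exact ⟨j, Pi.single j u, by rw [Pi.norm_single, hu], fun k hk => by simp [hk], h⟩
  obtain ⟨c, hc, hcq⟩ : ∃ c : ℝ, 0 < c ∧ ∀ w : En n, 2 * c * ‖w‖ ^ 2 ≤ (H w w + H (I • w) (I • w)) / 4 := by
    have hq : Continuous fun w : En n => (H w w + H (I • w) (I • w)) / 4 := by fun_prop
    obtain ⟨w₀, hw₀, hm⟩ := (isCompact_sphere (0 : En n) 1).exists_isMinOn ⟨ν, by simpa using hν1⟩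
      hq.continuousOn
    have hw1 : ‖w₀‖ = 1 := by simpa using hw₀
    have hpos := hL w₀ (by rintro rfl; simp at hw1)
    rw [hLv] at hpos
    refine ⟨(H w₀ w₀ + H (I • w₀) (I • w₀)) / 4 / 2, by linarith, fun w => ?_⟩
    by_cases hw : w = 0
    · simp [hw]
    have hn : 0 < ‖w‖ := norm_pos_iff.2 hw
    have h3 : (‖w‖⁻¹ • w) ∈ sphere (0 : En n) 1 := by
      simp [norm_smul, hn.ne']
    have h4 : (H w₀ w₀ + H (I • w₀) (I • w₀)) / 4 ≤
        (H (‖w‖⁻¹ • w) (‖w‖⁻¹ • w) + H (I • ‖w‖⁻¹ • w) (I • ‖w‖⁻¹ • w)) / 4 := hm h3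
    rw [smul_comm I ‖w‖⁻¹ w] at h4
    simp only [map_smul, smul_apply, smul_eq_mul] at h4
    have h5 := mul_le_mul_of_nonneg_left h4 (sq_nonneg ‖w‖)
    have h6 : ‖w‖ ^ 2 * ((‖w‖⁻¹ * (‖w‖⁻¹ * H w w) + ‖w‖⁻¹ * (‖w‖⁻¹ * H (I • w) (I • w))) / 4) =
        (H w w + H (I • w) (I • w)) / 4 := by
      field_simp
    linarith
  obtain ⟨R, hR, hRs⟩ : ∃ R : ℝ, 0 < R ∧ ∀ x ∈ closedBall p R,
      ‖fderiv ℝ (fderiv ℝ r) x - H‖ ≤ c ∧ fderiv ℝ r p ν / 2 ≤ fderiv ℝ r x ν := by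
    have a1 := near h1 p c hc
    have a2 : ∀ᶠ x in 𝓝 p, fderiv ℝ r p ν / 2 ≤ fderiv ℝ r x ν := by
      have h3 := h1.continuous
      have : ContinuousAt (fun x => fderiv ℝ r x ν) p := by fun_prop
      exact (ContinuousAt.eventually_lt continuousAt_const this
        (by show fderiv ℝ r p ν / 2 < fderiv ℝ r p ν; linarith)).mono fun _ h => h.le
    obtain ⟨R, hR, h⟩ := nhds_basis_closedBall.eventually_iff.1 (a1.and a2)
    exact ⟨R, hR, fun x hx => h hx⟩
  set R₁ := min R (1 / 4) with hR₁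
  have hR1 : 0 < R₁ := lt_min hR (by norm_num)
  have hsub : closedBall p R₁ ⊆ closedBall p R := closedBall_subset_closedBall (min_le_left _ _)
  obtain ⟨B, hB⟩ := (isCompact_closedBall p R₁).exists_bound_of_continuousOn hr.continuous.continuousOn
  obtain ⟨g, g1, g2, g3, g4, g5⟩ := bump_exists p R₁ hR1 B
  have hrt : ContDiff ℝ ∞ (fun x => r x + g x) := hr.add g1
  obtain ⟨P, hP⟩ := P_exists H
  obtain ⟨M₁, m1, m2⟩ := bnd hr p R₁
  obtain ⟨M₂, m3, m4⟩ := bnd hrt p R₁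
  set M := max (max 1 (∑ j, ∑ k, ‖P j k‖)) (max M₁ M₂) with hM
  have e1 : M₁ ≤ M := (le_max_left _ _).trans (le_max_right _ _)
  have e2 : M₂ ≤ M := (le_max_right _ _).trans (le_max_right _ _)
  refine ⟨fun x => r x + g x, ν, P, j₀, R₁ / 8, R₁, fderiv ℝ r p ν / 2, c, M, hr, hrt, hp, by positivity,
    by linarith, min_le_right _ _, by linarith, hc, (le_max_left _ _).trans (le_max_left _ _), hν1, hν2,
    fun x => by linarith [g3 x], fun x hx => by simp [g4 x hx], fun x hx hx' => ?_,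
    fun x hx => (hRs x (hsub hx)).2, fun x hx => (m1 x hx).trans e1, fun x hx => (m3 x hx).trans e2,
    fun x hx y hy => (m2 x hx y hy).trans (mul_le_mul_of_nonneg_right e1 (norm_nonneg _)),
    fun x hx y hy => (m4 x hx y hy).trans (mul_le_mul_of_nonneg_right e2 (norm_nonneg _)),
    (le_max_right _ _).trans (le_max_left _ _), fun z hz ζ hζ => ?_⟩
  · have a1 := hB x hx
    have a2 := g5 x hx'
    rw [Real.norm_eq_abs] at a1
    linarith [(abs_le.1 a1).1]
  · have a1 := taylor hr p R₁ c hc.le H hs (fun x hx => (hRs x (hsub hx)).1) z hz ζ hζ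
    have a2 := grad_ineq g2 (g1.differentiable (by simp)) z ζ
    have a3 := hP (z - ζ)
    have a4 := hcq (z - ζ)
    simp only [Pi.sub_apply] at a3
    rw [a3, fderiv_fun_add (hr.differentiable (by simp) ζ) (g1.differentiable (by simp) ζ),
      add_apply]
    linarith [(abs_le.1 a1).1]

end Pool.Agent.H462Z.NU
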